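import Pool.Agent.Helper78.DT.Goals3

/-!
# Packet DT-TOA (MP_34c247_lc): the generator for a given partition
-/

namespace Pool.Agent.Helper79.DT

open Pool.Agent.Helper78.DT
open scoped Classical

theorem abs_pr_sub_le {Ω Ω' : Type} [Fintype Ω] [Fintype Ω'] (E : Ω → Prop) (E' : Ω' → Prop) :
    |pr E - pr E'| ≤ 1 := by
  have h1 := pr_nonneg E
  have h2 := pr_le_one E
  have h3 := pr_nonneg E'
  have h4 := pr_le_one E'
  rw [abs_le]
  constructor <;> linarith

theorem er_nonneg {P t s e : ℕ} {η κ δ : ℝ} (hδ : 0 ≤ δ) (hη : 0 < η) (hκ : 0 < κ) :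
    0 ≤ er P t s e η κ δ := by
  unfold er
  have h1 : 0 ≤ ((t * s : ℕ) : ℝ) ^ 2 * e / P := by positivity
  have h2 : 0 ≤ ((s : ℝ) + 1) * (κ ^ (1 - η) * (2 / η) ^ t) := by positivity
  linarith

/-- the error for one good `θ` -/
theorem good_err (hFoo : FooStmt) (hHyb : HybStmt) (n K t e P R d q s : ℕ) (η κ δ : ℝ)
    (hP : P.Prime) (hq : 0 < q) (hn : n ≤ 2 ^ e) (hδ : 0 ≤ δ) (hη : 0 < η) (hη1 : η ≤ 1)
    (hκ : 0 < κ) (hs : (2 / η) ^ t ≤ s * (κ / 2 ^ t) ^ η) (h : ℕ → ℕ) (hh : ∀ v, h v < K)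
    (f : DL (Fin n)) (hf : ∀ g ∈ f, ∀ j < K, (g.1.filter fun p => h p.1 = j).card ≤ t)
    (θ : ℕ → ℕ) (hg : Good R P d q t s κ δ θ) :
    |pr (fun z : Fin K → Fin (q * P) =>
        ev f (fun v => hb R P d θ (ext z (h v) / P)
          (Pool.Agent.Helper78.DT.hs P e (ext z (h v) % P) v)) = true) -
      pr (fun x => ev f x = true)| ≤ K * er P t s e η κ δ := by
  have : Nonempty (Fin q × Fin P) := ⟨(⟨0, hq⟩, ⟨0, hP.pos⟩)⟩
  have h1 := hHyb n K t (Fin q × Fin P)
    (fun p v => hb R P d θ p.1 (Pool.Agent.Helper78.DT.hs P e p.2 v)) (er P t s e η κ δ)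
    (er_nonneg hδ hη hκ)
    (fun g hw => hFoo R P d q t s e n η κ δ θ hP hq hη hη1 hκ hs hn hδ hg g hw)
    (fun v => ⟨h v, hh v⟩) f (by
      intro g hgf j
      refine le_trans (Finset.card_le_card ?_) (hf g hgf j j.2)
      intro p hp
      rw [Finset.mem_filter] at hp ⊢
      exact ⟨hp.1, by
        have := congrArg Fin.val hp.2
        exact this⟩)
  have h2 := pr_equiv (Equiv.piCongrRight fun _ : Fin K => (finProdFinEquiv (m := q) (n := P)).symm)
    (fun z : Fin K → Fin q × Fin P => ev f (fun v =>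
      hb R P d θ (z ⟨h v, hh v⟩).1 (Pool.Agent.Helper78.DT.hs P e (z ⟨h v, hh v⟩).2 v)) = true)
  rw [← h2] at h1
  convert h1 using 3
  refine pr_congr fun z => ?_
  have h3 : (fun v : Fin n => hb R P d θ (ext z (h v) / P)
      (Pool.Agent.Helper78.DT.hs P e (ext z (h v) % P) v)) = fun v : Fin n =>
      hb R P d θ (((Equiv.piCongrRight fun _ : Fin K =>
        (finProdFinEquiv (m := q) (n := P)).symm) z) ⟨h v, hh v⟩).1
        (Pool.Agent.Helper78.DT.hs P e (((Equiv.piCongrRight fun _ : Fin K =>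
        (finProdFinEquiv (m := q) (n := P)).symm) z) ⟨h v, hh v⟩).2 v) := by
    funext v
    have h4 : ext z (h v) = (z ⟨h v, hh v⟩ : ℕ) := by
      unfold ext
      rw [dif_pos (hh v)]
    rw [h4]
    rfl
  rw [h3]

/-- **TOA.** -/
theorem toa (hGoo : GooStmt) (hFoo : FooStmt) (hHyb : HybStmt) : ToaStmt := by
  intro n K t e P R d q k s η κ δ hP hR hK hq hqP hn hd hδ hk hts hη hη1 hκ hs h hh f hf
  have hG := hGoo R P d q k t s κ δ hR hq hqP hd hδ hk hts
  set c : ℝ := pr (fun x : Fin n → Bool => ev f x = true) with hc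
  set F : (Fin d → Fin R) → ℝ := fun θ => pr (fun z : Fin K → Fin (q * P) =>
    ev f (fun v => hb R P d (ext θ) (ext z (h v) / P)
      (Pool.Agent.Helper78.DT.hs P e (ext z (h v) % P) v)) = true) with hF
  have : Nonempty (Fin d → Fin R) := ⟨fun _ => ⟨0, hR.pos⟩⟩
  have h1 : pr (fun z : (Fin d → Fin R) × (Fin K → Fin (q * P)) =>
      ev f (fun v => hb R P d (ext z.1) (ext z.2 (h v) / P)
        (Pool.Agent.Helper78.DT.hs P e (ext z.2 (h v) % P) v)) = true) = av F := by
    unfold pr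
    rw [av_prod]
    rfl
  rw [h1]
  have h2 : av F - c = av fun θ => F θ - c := by
    rw [av_sub, av_const]
  rw [h2]
  have her := er_nonneg (P := P) (t := t) (s := s) (e := e) hδ.le hη hκ
  have hKer : 0 ≤ (K : ℝ) * er P t s e η κ δ := mul_nonneg (Nat.cast_nonneg _) her
  calc |av fun θ => F θ - c| ≤ av fun θ => |F θ - c| := abs_av_le _
    _ ≤ av fun θ => (if ¬ Good R P d q t s κ δ (ext θ) then (1 : ℝ) else 0)
        + K * er P t s e η κ δ := by
      refine av_mono fun θ => ?_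
      by_cases hg : Good R P d q t s κ δ (ext θ)
      · rw [if_neg (not_not.mpr hg), zero_add]
        exact good_err hFoo hHyb n K t e P R d q s η κ δ hP hq hn hδ.le hη hη1 hκ hs h hh f hf
          (ext θ) hg
      · rw [if_pos hg]
        have := abs_pr_sub_le (fun z : Fin K → Fin (q * P) =>
          ev f (fun v => hb R P d (ext θ) (ext z (h v) / P)
            (Pool.Agent.Helper78.DT.hs P e (ext z (h v) % P) v)) = true)
          (fun x : Fin n → Bool => ev f x = true)
        have h3 : |F θ - c| ≤ 1 := this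
        linarith
    _ = pr (fun θ : Fin d → Fin R => ¬ Good R P d q t s κ δ (ext θ))
        + K * er P t s e η κ δ := by
      rw [av_add, av_const]
      congr 1
      unfold pr
      refine av_congr fun θ => ?_
      congr
    _ ≤ _ := by linarith

end Pool.Agent.Helper79.DT
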